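import Pool.Agent.MultiAll.MainG
import Pool.Agent.MultiRate.Rate

/-!
# Divisibility of the degrees of curves for almost all multidegrees

The setting is that of the frozen statement `S00299`: forms `f i` of degree `d i` in `n + r + 1`
variables over `ℂ`, off countably many proper closed sets (`bad`), and a homogeneous prime `I` with
`dim ℂ[x]/I = 2` containing the forms, i.e. an integral curve `C` on the complete intersection
`X ⊆ ℙ^(n+r)`.  The number `e` is the degree of `C`: the eventual difference of the Hilbert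
function of `ℂ[x]/I`.
-/

set_option autoImplicit false

open MvPolynomial

namespace Pool.Agent.Results.MP_8dbee4_ag.AlmostAll

/-- The Hilbert function of `ℂ[x]/I`. -/
noncomputable def hilb {m : ℕ} (I : Ideal (MvPolynomial (Fin m) ℂ)) (k : ℕ) : ℕ :=
  Module.finrank ℂ (Submodule.map (Ideal.Quotient.mkₐ ℂ I).toLinearMap
    (homogeneousSubmodule (Fin m) ℂ k))

/-- `I` is the homogeneous prime ideal of an integral curve in `ℙ^(m-1)`. -/
def IsCurve {m : ℕ} (I : Ideal (MvPolynomial (Fin m) ℂ)) : Prop :=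
  (∀ p ∈ I, ∀ k : ℕ, homogeneousComponent k p ∈ I) ∧ I.IsPrime ∧
    ringKrullDim (MvPolynomial (Fin m) ℂ ⧸ I) = 2

/-- The degree `e` of every integral curve on the very general complete intersection of type
`(d 1, …, d r)` and dimension `n` satisfies `Q e`. -/
def DegreesOfCurves (n r : ℕ) (d : Fin r → ℕ) (Q : ℕ → Prop) : Prop :=
  ∃ bad : ℕ → MvPolynomial (Σ i : Fin r, {m : Fin (n + r + 1) →₀ ℕ // m.degree = d i}) ℂ,
    (∀ j, bad j ≠ 0) ∧
    ∀ f : Fin r → MvPolynomial (Fin (n + r + 1)) ℂ,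
      (∀ i, f i ∈ homogeneousSubmodule (Fin (n + r + 1)) ℂ (d i)) →
      (∀ j, eval (fun x => coeff x.2.1 (f x.1)) (bad j) ≠ 0) →
      ∀ I : Ideal (MvPolynomial (Fin (n + r + 1)) ℂ), IsCurve I → (∀ i, f i ∈ I) →
        ∃ e : ℕ, (∃ K : ℕ, ∀ k : ℕ, K ≤ k → hilb I (k + 1) = hilb I k + e) ∧ Q e

/-- For all `n ≥ 1` and `r` there is a constant `c` such that for all but at most `ε X ^ r` of the
tuples `(d 1, …, d r)` in `[1, X] ^ r`, `X ≥ X₀ (ε)`, the degree `e` of every curve on the very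
general complete intersection of type `(d 1, …, d r)` and dimension `n` is such that
`d 1 ⋯ d r` divides `(2 n!) ^ c e`.  Moreover, of the tuples in `[1, X] ^ r` none of whose entries
is a prime times an integer less than `c`, at most `c X ^ (r - 1 / (2 n + 2))` are exceptions. -/
theorem result (n : ℕ) (hn : 0 < n) (r : ℕ) :
    ∃ c : ℕ, (∀ ε : ℝ, 0 < ε → ∃ X₀ : ℕ, ∀ X : ℕ, X₀ ≤ X →
      (Set.ncard {d : Fin r → ℕ | (∀ i, 1 ≤ d i ∧ d i ≤ X) ∧
        ¬ DegreesOfCurves n r d fun e => ∏ i, d i ∣ (2 * Nat.factorial n) ^ c * e} : ℝ) ≤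
        ε * (X : ℝ) ^ r) ∧
      ∀ X : ℕ, 1 ≤ X →
      (Set.ncard {d : Fin r → ℕ | (∀ i, 1 ≤ d i ∧ d i ≤ X) ∧
        (∀ i, ∀ p : ℕ, p.Prime → p ∣ d i → c * p ≤ d i) ∧
        ¬ DegreesOfCurves n r d fun e => ∏ i, d i ∣ (2 * Nat.factorial n) ^ c * e} : ℝ) ≤
        c * (X : ℝ) ^ ((r : ℝ) - 1 / (2 * n + 2)) := by
  classical
  obtain ⟨c, hc, h⟩ := Pool.Agent.MultiAll.main_all n r
  obtain ⟨M, hM⟩ := Pool.Agent.MultiRate.density_pow (max c (2 ^ n * Nat.factorial n))
    (max c (max n 2)) n r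
  set c' : ℕ := max (max c (2 ^ n * Nat.factorial n)) M with hc'
  have key : ∀ d : Fin r → ℕ, (∀ i, 1 ≤ d i) →
      Pool.Agent.MultiSpec.Density.Cond (max c (2 ^ n * Nat.factorial n))
        (max c (max n 2)) n d →
      DegreesOfCurves n r d fun e => ∏ i, d i ∣ (2 * Nat.factorial n) ^ c' * e := by
    intro d hd hcond
    obtain ⟨bad, h1, h2⟩ := h d
    refine ⟨bad, h1, fun f hf hb I ⟨hI, hIp, hdim⟩ hfI => ?_⟩
    obtain ⟨e, he, h3, h4, h5⟩ := h2 f hf hb I hI hIp hdim hfI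
    refine ⟨e, he, ?_⟩
    exact (Pool.Agent.MultiAll.prod_dvd_of_cond hn hc hd hcond h3 h4 h5).trans
      (mul_dvd_mul_right (pow_dvd_pow _ ((le_max_left _ _).trans (le_max_left _ _))) _)
  refine ⟨c', fun ε hε => ?_, fun X hX => ?_⟩
  · obtain ⟨X₀, hX₀⟩ := Pool.Agent.MultiSpec.Density.density (max c (2 ^ n * Nat.factorial n))
      (max c (max n 2)) n r ε hε
    refine ⟨X₀, fun X hX => le_trans ?_ (hX₀ X hX)⟩
    rw [← Set.ncard_coe_finset]
    refine Nat.cast_le.2 (Set.ncard_le_ncard ?_ (Finset.finite_toSet _))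
    rintro d ⟨hd, hnot⟩
    rw [Finset.mem_coe, Finset.mem_filter, Pool.Agent.MultiSpec.Density.mem_box]
    exact ⟨hd, fun hcond => hnot (key d (fun i => (hd i).1) hcond)⟩
  · have hY : (0 : ℝ) ≤ (X : ℝ) ^ ((r : ℝ) - 1 / (2 * n + 2)) :=
      Real.rpow_nonneg (Nat.cast_nonneg _) _
    refine le_trans ?_ ((hM X hX).trans
      (mul_le_mul_of_nonneg_right (Nat.cast_le.2 (le_max_right _ _)) hY))
    rw [← Set.ncard_coe_finset]
    refine Nat.cast_le.2 (Set.ncard_le_ncard ?_ (Finset.finite_toSet _))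
    rintro d ⟨hd, hlarge, hnot⟩
    rw [Finset.mem_coe, Finset.mem_filter, Pool.Agent.MultiSpec.Density.mem_box]
    refine ⟨hd, fun hcond => hnot (key d (fun i => (hd i).1) hcond), fun i p hp hpi => ?_⟩
    exact (Nat.mul_le_mul_right p (le_max_left _ _)).trans (hlarge i p hp hpi)

end Pool.Agent.Results.MP_8dbee4_ag.AlmostAll
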