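import Pool.Agent.DensDeg.TMain

/-!
# Prime powers dividing the degrees of curves, with a linear threshold

The setting is that of the frozen statement `S00299`: forms `f i` of degree `d i` in `n + r + 1`
variables over `ℂ`, off countably many proper closed sets (`bad`), and a homogeneous prime `I` with
`dim ℂ[x]/I = 2` containing the forms, i.e. an integral curve `C` on the complete intersection
`X ⊆ ℙ^(n+r)`.  The number `e` is the degree of `C`: the eventual difference of the Hilbert
function of `ℂ[x]/I`.
-/

set_option autoImplicit false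

open MvPolynomial

namespace Pool.Agent.Results.MP_8dbee4_ag.LinearThreshold

/-- For every `n` there is a constant `c` such that the degree `e` of every curve on the very
general complete intersection of type `(d 1, …, d r)` and dimension `n` satisfies: if a prime power
`q` divides some `d k ≥ c q`, then `q` divides `c e`. -/
theorem result (n : ℕ) :
    ∃ c : ℕ, 0 < c ∧ ∀ (r : ℕ) (d : Fin r → ℕ),
      ∃ bad : ℕ → MvPolynomial (Σ i : Fin r, {m : Fin (n + r + 1) →₀ ℕ // m.degree = d i}) ℂ,
        (∀ j, bad j ≠ 0) ∧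
        ∀ f : Fin r → MvPolynomial (Fin (n + r + 1)) ℂ,
          (∀ i, f i ∈ homogeneousSubmodule (Fin (n + r + 1)) ℂ (d i)) →
          (∀ j, eval (fun x => coeff x.2.1 (f x.1)) (bad j) ≠ 0) →
          ∀ I : Ideal (MvPolynomial (Fin (n + r + 1)) ℂ),
            (∀ p ∈ I, ∀ k : ℕ, homogeneousComponent k p ∈ I) →
            I.IsPrime →
            ringKrullDim (MvPolynomial (Fin (n + r + 1)) ℂ ⧸ I) = 2 →
            (∀ i, f i ∈ I) →
            ∃ e : ℕ,
              (∃ K : ℕ, ∀ k : ℕ, K ≤ k →
                Module.finrank ℂ (Submodule.map (Ideal.Quotient.mkₐ ℂ I).toLinearMap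
                    (homogeneousSubmodule (Fin (n + r + 1)) ℂ (k + 1))) =
                Module.finrank ℂ (Submodule.map (Ideal.Quotient.mkₐ ℂ I).toLinearMap
                    (homogeneousSubmodule (Fin (n + r + 1)) ℂ k)) + e) ∧
              ∀ (k : Fin r) (p a : ℕ), p.Prime → p ^ a ∣ d k → c * p ^ a ≤ d k →
                p ^ a ∣ c * e := by
  obtain ⟨c, hc, h⟩ := Pool.Agent.DensDeg.main_T n
  refine ⟨c, hc, fun r d => ?_⟩
  obtain ⟨bad, h1, h2⟩ := h r d
  refine ⟨bad, h1, fun f hf hb I hI hIp hdim hfI => ?_⟩
  obtain ⟨e, he, h3, _⟩ := h2 f hf hb I hI hIp hdim hfI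
  exact ⟨e, he, h3⟩

end Pool.Agent.Results.MP_8dbee4_ag.LinearThreshold
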