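import Pool.Agent.MultiSpec.AsFinal

/-!
# Divisibility by the product of the degrees

The setting is that of the frozen statement `S00299`: forms `f i` of degree `d i` in
`n + r + 1` variables over `ℂ`, off countably many proper closed sets (`bad`), and a homogeneous
prime `I` with `dim ℂ[x]/I = 2` containing the forms, i.e. an integral curve `C` on the complete
intersection `X ⊆ ℙ^(n+r)`.  The number `e` is the degree of `C`: the eventual difference of the
Hilbert function of `ℂ[x]/I`.
-/

set_option autoImplicit false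

open MvPolynomial

namespace Pool.Agent.Results.MP_8dbee4_ag.MultiDegree

/-- Let `p > n` be an odd prime and let `a i ≥ 0` be integers such that, for every `i` with
`a i > 0`, either `2 ^ n * n! * p ^ a i` divides `d i`, or `p ^ a i` divides `d i` and
`2 ^ n * n! * (p ^ a i) ^ n ≤ d i`.  Then `p ^ (a 1 + ⋯ + a r)` divides the degree of every curve
on the very general complete intersection of type `(d 1, …, d r)`.
-/
theorem result (n r : ℕ) (d : Fin r → ℕ) :
    ∃ bad : ℕ → MvPolynomial (Σ i : Fin r, {m : Fin (n + r + 1) →₀ ℕ // m.degree = d i}) ℂ,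
      (∀ j, bad j ≠ 0) ∧
      ∀ f : Fin r → MvPolynomial (Fin (n + r + 1)) ℂ,
        (∀ i, f i ∈ homogeneousSubmodule (Fin (n + r + 1)) ℂ (d i)) →
        (∀ j, eval (fun x => coeff x.2.1 (f x.1)) (bad j) ≠ 0) →
        ∀ I : Ideal (MvPolynomial (Fin (n + r + 1)) ℂ),
          (∀ p ∈ I, ∀ k : ℕ, homogeneousComponent k p ∈ I) →
          I.IsPrime →
          ringKrullDim (MvPolynomial (Fin (n + r + 1)) ℂ ⧸ I) = 2 →
          (∀ i, f i ∈ I) →
          ∃ e : ℕ,
            (∃ K : ℕ, ∀ k : ℕ, K ≤ k →
              Module.finrank ℂ (Submodule.map (Ideal.Quotient.mkₐ ℂ I).toLinearMap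
                  (homogeneousSubmodule (Fin (n + r + 1)) ℂ (k + 1))) =
              Module.finrank ℂ (Submodule.map (Ideal.Quotient.mkₐ ℂ I).toLinearMap
                  (homogeneousSubmodule (Fin (n + r + 1)) ℂ k)) + e) ∧
            ∀ (p : ℕ) (a : Fin r → ℕ), p.Prime → p ≠ 2 → n < p →
              (∀ i, a i = 0 ∨ 2 ^ n * Nat.factorial n * p ^ a i ∣ d i ∨
                (p ^ a i ∣ d i ∧ 2 ^ n * Nat.factorial n * (p ^ a i) ^ n ≤ d i)) →
              p ^ (∑ i, a i) ∣ e :=
  Pool.Agent.MultiSpec.main_multi n r d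

end Pool.Agent.Results.MP_8dbee4_ag.MultiDegree
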