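import Pool.Agent.SmallDeg.ExcAll
import Pool.Agent.SmallProd54.ExcA
import Pool.Agent.SmallProd54.ExcC

/-!
# Curves of small degree on very general complete intersections

The setting is that of the frozen statement `S00299`: forms `f i` of degree `d i` in `n + r + 1`
variables over `ℂ`, off countably many proper closed sets (`bad`), and a homogeneous prime `I` with
`dim ℂ[x]/I = 2` containing the forms, i.e. an integral curve `Z` on the complete intersection
`X ⊆ ℙ^(n+r)`.  The number `e` is the degree of `Z`: the eventual difference of the Hilbert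
function of `ℂ[x]/I`.
-/

set_option autoImplicit false

open MvPolynomial

namespace Pool.Agent.Results.MP_8dbee4_ag.SmallDegree

/-- For all `n` and `r` there is a constant `C` such that the degree `e` of every curve on the very
general complete intersection of type `(d 1, …, d r)` and dimension `n` satisfies for every `k`:
if `C e ≤ d 1 ⋯ d r · d k` then the product of all `d i ≥ d k` divides `e`.  For `d k` minimal:
if `C e ≤ d 1 ⋯ d r · min (d i)` then `d 1 ⋯ d r` divides `e`. -/
theorem result (n r : ℕ) :
    ∃ C : ℕ, 0 < C ∧ ∀ d : Fin r → ℕ,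
      ∃ bad : ℕ → MvPolynomial (Σ i : Fin r, {m : Fin (n + r + 1) →₀ ℕ // m.degree = d i}) ℂ,
        (∀ j, bad j ≠ 0) ∧
        ∀ f : Fin r → MvPolynomial (Fin (n + r + 1)) ℂ,
          (∀ i, f i ∈ homogeneousSubmodule (Fin (n + r + 1)) ℂ (d i)) →
          (∀ j, eval (fun x => coeff x.2.1 (f x.1)) (bad j) ≠ 0) →
          ∀ I : Ideal (MvPolynomial (Fin (n + r + 1)) ℂ),
            (∀ p ∈ I, ∀ k : ℕ, homogeneousComponent k p ∈ I) →
            I.IsPrime →
            ringKrullDim (MvPolynomial (Fin (n + r + 1)) ℂ ⧸ I) = 2 →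
            (∀ i, f i ∈ I) →
            ∃ e : ℕ,
              (∃ K : ℕ, ∀ k : ℕ, K ≤ k →
                Module.finrank ℂ (Submodule.map (Ideal.Quotient.mkₐ ℂ I).toLinearMap
                    (homogeneousSubmodule (Fin (n + r + 1)) ℂ (k + 1))) =
                Module.finrank ℂ (Submodule.map (Ideal.Quotient.mkₐ ℂ I).toLinearMap
                    (homogeneousSubmodule (Fin (n + r + 1)) ℂ k)) + e) ∧
              ∀ k : Fin r, C * e ≤ (∏ i, d i) * d k → (∏ i with d k ≤ d i, d i) ∣ e := by
  obtain ⟨C, hC, h⟩ := Pool.Agent.SmallDeg.main3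
    (fun n c F r _ hF => Pool.Agent.SmallDeg.exc_all Pool.Agent.SmallProd54.totient_lower c
      (Pool.Agent.SmallProd54.exc_M F n r)) n r
  refine ⟨C, hC, fun d => ?_⟩
  obtain ⟨bad, h1, h2⟩ := h d
  refine ⟨bad, h1, fun f hf hb I hI _ hdim hfI => ?_⟩
  exact h2 f hf hb I hI hdim hfI

end Pool.Agent.Results.MP_8dbee4_ag.SmallDegree
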